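import Mathlib
import Pool.Agent.H4.GIdxE

namespace Pool.Agent.Results.MP_6f03fc_co.Gap

open Pool.Agent.H4.GIdx

open Classical in
/-- There is a `G`-equivariant simplicial map from the order complex of `P` to `E_k G`. -/
def SMap (G P : Type) [Group G] [PartialOrder P] [MulAction G P] (k : ℕ) : Prop :=
  ∃ ψ : P → G × Fin (k + 1), (∀ (a : G) (p : P), ψ (a • p) = (a * (ψ p).1, (ψ p).2)) ∧
    ∀ s : Finset P, Chain P s → EF G k (s.image ψ)

theorem result (G : Type) [Group G] [Fintype G] [Nontrivial G] (m n : ℕ) (hn : 1 ≤ n)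
    (hnm : n < m) : ∃ (P : Type) (_ : Fintype P) (_ : PartialOrder P) (_ : MulAction G P),
      FreePoset G P ∧ IsLeast {k | SMap G P k} m ∧ IsLeast {k | GMap G (Chain P) k} n := by
  classical
  obtain ⟨g, hg⟩ := exists_ne (1 : G)
  obtain ⟨m, rfl⟩ : ∃ k, m = k + 1 := ⟨m - 1, by omega⟩
  obtain ⟨W, _, γ, D, hD, h1, h2⟩ := ivt g hg (fun p q => p.2 = q.2 → p.1 = q.1) (fun _ _ => rfl)
    (fun _ _ h e => by omega) (fun p q h e => h e) m
  refine ⟨PP ⟨D, hD⟩ n, inferInstance, inferInstance, inferInstance, pp_free, ⟨?_, ?_⟩, pp_ind hn⟩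
  · obtain ⟨ψ, a, b⟩ := pp_lab (D := ⟨D, hD⟩) (fun _ _ => rfl) (fun _ _ h e => by omega) hnm.le h1
    refine ⟨ψ, a, fun s hs => ⟨hs.1.image _, fun u hu v hv e => ?_⟩⟩
    obtain ⟨p, hp, rfl⟩ := Finset.mem_image.1 hu
    obtain ⟨q, hq, rfl⟩ := Finset.mem_image.1 hv
    rcases hs.2.total hp hq with h | h
    · exact Prod.ext (b p q h (congrArg Fin.val e)) e
    · exact Prod.ext (b q p h (congrArg Fin.val e.symm)).symm e
  · rintro k ⟨ψ, a, b⟩
    by_contra hk
    refine h2 (lab_mono (by omega) (lab_pp (D := ⟨D, hD⟩) (k := k) (fun S => ψ (pl S))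
      (fun c S => a c (pl S)) fun S T h e => ?_))
    have hc : Chain (PP ⟨D, hD⟩ n) {pl S, pl T} := by
      refine ⟨by simp, ?_⟩
      intro p hp q hq _
      simp only [Finset.coe_insert, Finset.coe_singleton, Set.mem_insert_iff,
        Set.mem_singleton_iff] at hp hq
      rcases hp with rfl | rfl <;> rcases hq with rfl | rfl
      · exact Or.inl le_rfl
      · exact Or.inl h
      · exact Or.inr h
      · exact Or.inl le_rfl
    have := (b _ hc).2 (ψ (pl S)) (Finset.mem_image_of_mem _ (by simp)) (ψ (pl T))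
      (Finset.mem_image_of_mem _ (by simp)) (Fin.ext e)
    simp only [this]

end Pool.Agent.Results.MP_6f03fc_co.Gap
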